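import Pool.Agent.Q252.QD_LOP
import Pool.Agent.Q13.QD_SPH
import Pool.Agent.Q53.QD_EXF
import Pool.Agent.Q154.QD_LOW
import Pool.Agent.Q53.QD_MF
import Pool.Agent.Q142.QD_LSM
import Pool.Agent.Q278.QD.Smf
import Pool.Agent.Q256.QD.RAD
import Pool.Agent.Q130.QD.ETA
import Pool.Agent.Q53.QD_ASY1
import Pool.Agent.Q299.QD_ASY2
import Pool.Agent.Q142.QD_ASY3
import Pool.Agent.Q299.QD_DAT
import Pool.Agent.Q230.QD_ZE
import Pool.Agent.Q204.QD.Mm
import Pool.Agent.Q204.QD.Pp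
import Pool.Agent.Q94.QD_WL2
import Pool.Agent.Q217.QD.RAT2
import Pool.Agent.Q208.QD_WB2
import Pool.Agent.Q94.QD_TH2
import Pool.Agent.Q178.QD_CTL2
import Pool.Agent.Q187.QD_APP2
import Pool.Agent.Q160.QD_BT
import Pool.Agent.Q254.QD.VOL2
import Pool.Agent.Q113.QD_CVW2
import Pool.Agent.Q40.QD_CONV2
import Pool.Agent.Q86.QD_CONC2
import Pool.Agent.Q119.QD.VCONV2
import Pool.Agent.Q77.QD_NSPH
import Pool.Agent.Q222.QD_MAIN2
import Pool.Agent.Q82.QC.Main
import Pool.Agent.Q82.QC.POT0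
import Pool.Agent.Q82.QC.POT3
import Pool.Agent.Q82.QC.K0
import Pool.Agent.Q16.QC_SM
import Pool.Agent.Q16.QC_LAP
import Pool.Agent.Q16.QC_CD
import Pool.Agent.Q16.QC_POTL
import Pool.Agent.Q16.QC_KH
import Pool.Agent.Q217.QC.KD
import Pool.Agent.Q62.QC_RIESZ
import Pool.Agent.Q62.QC_MASS
import Pool.Agent.Q62.QC_TAIL
import Pool.Agent.Q62.QC_MOL

/-!
A sequence with a non-spherical concentration point beside a polyharmonic blow-up point, in a ball of
`ℝ⁴`.
-/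

set_option autoImplicit false

open MeasureTheory Filter Topology Real InnerProductSpace Laplacian

namespace Pool.Agent.Results.MP_af5b7f_an.NonSphericalBlowUp

/-- The space `ℝ⁴`. -/
abbrev R4 : Type := EuclideanSpace ℝ (Fin 4)

/-- The concentration blow-up set in `Ω`: the points `x` of `Ω` for which the limit, as `r → 0+`, of
the lower limit of the integrals of `V k * exp (4 * u k)` over the ball of radius `r` about `x`
exists and is at least `Λ₁ / 2 = 16 π² / 2`. -/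
def concentrationSet (Ω : Set R4) (V u : ℕ → R4 → ℝ) : Set R4 :=
  {x | x ∈ Ω ∧ ∃ L : ℝ, Tendsto (fun r : ℝ =>
    liminf (fun k => ∫ y in Metric.ball x r, V k y * Real.exp (4 * u k y)) atTop) (𝓝[>] 0) (𝓝 L) ∧
    16 * π ^ 2 / 2 ≤ L}

/-- The value at `v` of the derivative of order `m` of `f` at `x`. -/
noncomputable def der (m : ℕ) (f : R4 → ℝ) (x : R4) (v : Fin m → R4) : ℝ :=
  iteratedFDeriv ℝ m f x v

/-- The vectors have norm at most one. -/
def UnitBound (m : ℕ) (v : Fin m → R4) : Prop := ∀ i, ‖v i‖ ≤ 1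

/-- On `K`, `f` and `g` differ by at most `η` in all derivatives of order at most three (in operator
norm). -/
def C3Close (K : Set R4) (η : ℝ) (f g : R4 → ℝ) : Prop :=
  ∀ m : ℕ, m ≤ 3 → ∀ x ∈ K, ∀ v : Fin m → R4, UnitBound m v → |der m f x v - der m g x v| ≤ η

/-- On `K`, `f` and `g` differ by at most `η` in all derivatives of order at most three, and the
`α`-Hölder quotient of the third derivative of the difference is at most `η`. -/
def HolderClose (K : Set R4) (α η : ℝ) (f g : R4 → ℝ) : Prop :=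
  C3Close K η f g ∧
  ∀ x ∈ K, ∀ y ∈ K, ∀ v : Fin 3 → R4, UnitBound 3 v →
    |(der 3 f x v - der 3 g x v) - (der 3 f y v - der 3 g y v)| ≤ η * ‖x - y‖ ^ α

/-- Convergence in `C^{3,α}` on every compact subset of `U`, for every `α ∈ [0,1)`. -/
def HolderLocConv (U : Set R4) (f : ℕ → R4 → ℝ) (g : R4 → ℝ) : Prop :=
  ∀ K : Set R4, IsCompact K → K ⊆ U → ∀ α : ℝ, 0 ≤ α → α < 1 → ∀ η : ℝ, 0 < η → ∀ᶠ k in atTop,
    HolderClose K α η (f k) g

/-- Convergence in `C^3` on every compact subset of `ℝ⁴`. -/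
def C3LocConv (f : ℕ → R4 → ℝ) (g : R4 → ℝ) : Prop :=
  ∀ K : Set R4, IsCompact K → ∀ η : ℝ, 0 < η → ∀ᶠ k in atTop, C3Close K η (f k) g

/-- Continuous coefficients which converge locally uniformly in `Ω` to a positive continuous limit. -/
def Coefficients (Ω : Set R4) (V : ℕ → R4 → ℝ) (V₀ : R4 → ℝ) : Prop :=
  (∀ k, ContinuousOn (V k) Ω) ∧ ContinuousOn V₀ Ω ∧ (∀ x ∈ Ω, 0 < V₀ x) ∧
    TendstoLocallyUniformlyOn V V₀ atTop Ω

/-- Smooth solutions of `Δ² u = V exp (4 u)` in `Ω`. -/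
def Solutions (Ω : Set R4) (V u : ℕ → R4 → ℝ) : Prop :=
  (∀ k, ∀ n : ℕ, ContDiffOn ℝ n (u k) Ω) ∧
  ∀ k, ∀ x ∈ Ω, Δ (Δ (u k)) x = V k x * Real.exp (4 * u k x)

/-- The integrals of `exp (4 u)` over `Ω` are bounded by one constant. -/
def BoundedVolume (Ω : Set R4) (u : ℕ → R4 → ℝ) : Prop :=
  ∃ C : ℝ, ∀ k, IntegrableOn (fun x => Real.exp (4 * u k x)) Ω ∧
    ∫ x in Ω, Real.exp (4 * u k x) ≤ C

/-- The class `𝒦(Ω, S)`: smooth, nonpositive, not identically zero and biharmonic in `Ω \ S`. -/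
def ProfileClass (Ω S : Set R4) (φ : R4 → ℝ) : Prop :=
  (∀ n : ℕ, ContDiffOn ℝ n φ (Ω \ S)) ∧ (∀ x ∈ Ω \ S, φ x ≤ 0) ∧ (∃ x ∈ Ω \ S, φ x ≠ 0) ∧
    ∀ x ∈ Ω \ S, Δ (Δ φ) x = 0

/-- The polyharmonic blow-up set. -/
def polyharmonicSet (Ω S : Set R4) (φ : R4 → ℝ) : Set R4 := {x | x ∈ Ω \ S ∧ φ x = 0}

/-- The blow-up case: `u k / β k → φ` in `C^{3,α}_loc (Ω \ (S₁ ∪ S_φ))` for all `α ∈ [0,1)`, where
`β k → ∞`, `φ` belongs to `𝒦(Ω, S₁)` and the set `S₁` is finite. -/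
def BlowUpCase (Ω : Set R4) (V u : ℕ → R4 → ℝ) (φ : R4 → ℝ) (β : ℕ → ℝ) : Prop :=
  (concentrationSet Ω V u).Finite ∧ ProfileClass Ω (concentrationSet Ω V u) φ ∧
  Tendsto β atTop atTop ∧
  HolderLocConv (Ω \ (concentrationSet Ω V u ∪ polyharmonicSet Ω (concentrationSet Ω V u) φ))
    (fun k x => u k x / β k) φ

/-- The normalisation of `u` at the point `p`. -/
noncomputable def normalised (V₀ : R4 → ℝ) (p : R4) (u : R4 → ℝ) (x : R4) : ℝ :=
  u x + 1 / 4 * Real.log (V₀ p / 6)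

/-- `2 * exp (- f x)`. -/
noncomputable def radius (f : R4 → ℝ) (x : R4) : ℝ := 2 * Real.exp (-f x)

/-- The function `y ↦ f (x + r y) + log r` with `r = 2 * exp (- f x)`. -/
noncomputable def rescaled (f : R4 → ℝ) (x y : R4) : ℝ :=
  f (x + radius f x • y) + Real.log (radius f x)

/-- The blow-up of `u` at `p` is spherical: there are points `x k → p` with
`r k = 2 * exp (- u k (x k)) → 0` such that, along a subsequence, the rescaled functions converge in
`C^3_loc (ℝ⁴)` to `log (2 / (1 + |y|²))` (after the normalisation of `u` at `p`). -/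
def Spherical (V₀ : R4 → ℝ) (u : ℕ → R4 → ℝ) (p : R4) : Prop :=
  ∃ (x : ℕ → R4) (s : ℕ → ℕ), Tendsto x atTop (𝓝 p) ∧
    Tendsto (fun k => radius (normalised V₀ p (u k)) (x k)) atTop (𝓝 0) ∧ StrictMono s ∧
    C3LocConv (fun j => rescaled (normalised V₀ p (u (s j))) (x (s j)))
      (fun y => Real.log (2 / (1 + ‖y‖ ^ 2)))

theorem apply_le {m : ℕ} (T : R4 [×m]→L[ℝ] ℝ) {c : ℝ} (h : ‖T‖ ≤ c) (v : Fin m → R4)
    (hv : UnitBound m v) : |T v| ≤ c := by
  have h1 : ‖T v‖ ≤ ‖T‖ * ∏ i, ‖v i‖ := T.le_opNorm v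
  have h2 : ∏ i, ‖v i‖ ≤ 1 := Finset.prod_le_one (fun i _ => norm_nonneg _) fun i _ => hv i
  rw [← Real.norm_eq_abs]
  calc ‖T v‖ ≤ ‖T‖ * ∏ i, ‖v i‖ := h1
    _ ≤ ‖T‖ * 1 := by gcongr
    _ ≤ c := by rw [mul_one]; exact h

open Pool.Agent.Q82.QC Pool.Agent.Q82.QD in
theorem main : S_MAIN2 := by
  have hLOP : S_LOP := lop
  have hSPH : S_SPH := sph hLOP
  have hLOW : S_LOW := low hLOP hSPH
  have hSMF : S_SMF := Pool.Agent.Q278.QD.smf lsm hLOP
  have hETA : S_ETA := Q130.QD.ETA.eta (Pool.Agent.Q256.QD.rad lsm hLOP) hSMF lsm hLOP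
  have hPP : S_PP := Pool.Agent.Q204.QD.pp1
  have hWL : S_WL2 := wl2 hETA hPP
  have hMM : S_MM := Pool.Agent.Q204.QD.mm1 hLOW
  have hRAT : S_RAT2 := Pool.Agent.Q217.QD.rat2 hPP
  have hWB : S_WB2 := wb2 hPP
  have hBT : S_BT := bt hMM
  have hKH := kh Pool.Agent.Q217.QC.kd sm
  have hPOT0 := pot0 k0 riesz
  have hPOTL := potl cd (lap sm) sm
  have hMOL := mol1 mass tail
  have hMOLI := moli mass
  exact main2 (exf hLOP hSPH) (dat (mf hLOW) (asy1 hLOP) asy2 asy3 hSMF) hMM hWL hPOTL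
    (ctl2 hWB th2) (Pool.Agent.Q254.QD.vol2 hWL hWB th2 hRAT hBT) (Pool.Agent.Q278.QD.eps2 hWL hMOL)
    hPOT0
    (conv2 hWL hPOTL (cvw2 ze hSMF hPP hWL hETA) hPOT0 (pot3 sm cd Pool.Agent.Q217.QC.kd riesz)
      (poth sm cd hKH riesz) hPP)
    (conc2 hBT hMOLI) (Pool.Agent.Q119.QD.vconv2 (app2 hRAT) hPOT0) (nsph mass) hMOLI

open Pool.Agent.Q82.QC Pool.Agent.Q82.QD in
theorem not_spherical_of {u : ℕ → R4 → ℝ} {p : R4} (h : ¬ Sph u p) :
    ¬ Spherical (fun _ => 6) u p := by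
  rintro ⟨x, s, h1, h2, h3, h4⟩
  apply h
  have hn : ∀ (w : R4 → ℝ) (q : R4), normalised (fun _ => 6) p w q = w q := by
    intro w q
    simp [normalised]
  have hr : ∀ (w : R4 → ℝ) (q : R4), radius (normalised (fun _ => 6) p w) q =
      2 * Real.exp (-w q) := by
    intro w q
    unfold radius
    rw [hn]
  refine ⟨x, s, h1, ?_, h3, ?_⟩
  · refine h2.congr fun k => ?_
    exact hr _ _
  · intro K hK η hη
    filter_upwards [h4 K hK η hη] with j hj y hy
    have := hj 0 (by norm_num) y hy (fun i => 0) (fun i => by simp)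
    unfold der rescaled at this
    rw [iteratedFDeriv_zero_apply, iteratedFDeriv_zero_apply, hr, hn] at this
    exact this

open Pool.Agent.Q82.QC Pool.Agent.Q82.QD in
theorem result : ∃ (V u : ℕ → R4 → ℝ) (V₀ φ : R4 → ℝ) (β : ℕ → ℝ),
    Coefficients (Metric.ball 0 (3 / 2)) V V₀ ∧ Solutions (Metric.ball 0 (3 / 2)) V u ∧
    BoundedVolume (Metric.ball 0 (3 / 2)) u ∧ BlowUpCase (Metric.ball 0 (3 / 2)) V u φ β ∧
    (polyharmonicSet (Metric.ball 0 (3 / 2)) (concentrationSet (Metric.ball 0 (3 / 2)) V u)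
      φ).Nonempty ∧
    ∃ p ∈ concentrationSet (Metric.ball 0 (3 / 2)) V u, ¬ Spherical V₀ u p := by
  obtain ⟨V, u, b, m, c1, c2, c3, c4, c5, c6, c7, c8, c9, c10, c11⟩ := main
  have hx0 : x0 ∈ Metric.ball (0 : R4) (3 / 2) := by
    rw [mem_ball_zero_iff, x0, EuclideanSpace.norm_single]; norm_num
  have hx1 : x1 ∈ Metric.ball (0 : R4) (3 / 2) := by
    rw [mem_ball_zero_iff, x1, EuclideanSpace.norm_single]; norm_num
  have hx01 : x1 ≠ x0 := by
    intro h
    have := congrArg (fun z : R4 => z 0) h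
    simp [x0, x1] at this
    norm_num at this
  have hpi : (0:ℝ) < π := Real.pi_pos
  have hC : concentrationSet (Metric.ball 0 (3 / 2)) V u = {x0} := by
    ext x
    constructor
    · rintro ⟨hx, L, hL, hL8⟩
      by_contra hne
      have hne' : x ≠ x0 := by simpa using hne
      obtain ⟨r0, hr0, hr⟩ := c8 x hx hne'
      have h0 : Tendsto (fun r : ℝ =>
          liminf (fun k => ∫ y in Metric.ball x r, V k y * Real.exp (4 * u k y)) atTop)
          (𝓝[>] 0) (𝓝 0) := by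
        apply tendsto_const_nhds.congr'
        filter_upwards [Ioo_mem_nhdsGT hr0] with r hr1
        exact (hr r hr1.1 hr1.2).liminf_eq.symm
      have : L = 0 := tendsto_nhds_unique hL h0
      rw [this] at hL8
      have : 0 < 16 * π ^ 2 / 2 := by positivity
      linarith
    · intro hx
      have hx' : x = x0 := by simpa using hx
      subst hx'
      refine ⟨hx0, m, ?_, by linarith⟩
      apply tendsto_const_nhds.congr'
      filter_upwards [Ioo_mem_nhdsGT (show (0:ℝ) < 1 / 2 by norm_num)] with r hr1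
      exact (c7 r hr1.1 hr1.2.le).liminf_eq.symm
  have hPP := Pool.Agent.Q204.QD.pp1
  have hPn : ∀ x ∈ Metric.ball (0 : R4) (3 / 2), 0 ≤ PP x := by
    intro x hx
    have hx' : ‖x‖ ≤ 5 / 3 := by
      have := mem_ball_zero_iff.1 hx
      linarith
    rcases le_total 0 (x 0) with h | h
    · exact (sq_nonneg _).trans (hPP.2.2.1 x hx' h)
    · exact (sq_nonneg _).trans (hPP.2.2.2.1 x hx' h)
  have hP1 : PP x1 = 0 := by
    unfold PP x1
    simp
    norm_num
  have hP00 : PP 0 = 1 := by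
    unfold PP
    simp
  have h0x : (0 : R4) ≠ x0 := by
    intro h
    have := congrArg (fun z : R4 => z 0) h
    simp [x0] at this
  refine ⟨V, u, fun _ => 6, fun x => -PP x, b, ⟨c1, continuousOn_const, fun _ _ => by norm_num,
    c2.tendstoLocallyUniformlyOn⟩, ⟨c3, c4⟩, c5, ⟨?_, ⟨?_, ?_, ?_, ?_⟩, c9, ?_⟩, ?_, ?_⟩
  · rw [hC]; exact Set.finite_singleton _
  · intro n
    exact (hPP.1 n).neg.contDiffOn
  · intro x hx
    have := hPn x hx.1
    show -PP x ≤ 0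
    linarith
  · refine ⟨0, ⟨by simp, ?_⟩, ?_⟩
    · rw [hC]; simpa using h0x
    · show -PP 0 ≠ 0
      rw [hP00]; norm_num
  · intro x _
    have e1 : (fun x : R4 => -PP x) = -PP := rfl
    have e2 : Δ (-PP) = -Δ PP := by
      rw [laplacian_neg]
    have e3 : Δ (-Δ PP) = -Δ (Δ PP) := by
      rw [laplacian_neg]
    rw [e1, e2, e3, Pi.neg_apply, hPP.2.1 x, neg_zero]
  · rw [hC]
    intro K hK hKU α hα0 hα1 η hη
    filter_upwards [c10 K hK (hKU.trans (Set.diff_subset_diff_right Set.subset_union_left))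
      α hα0 hα1 η hη] with k hk
    exact ⟨fun m hm x hx v hv => apply_le _ (hk.1 m hm x hx) v hv,
      fun x hx y hy v hv => apply_le _ (hk.2 x hx y hy) v hv⟩
  · rw [hC]
    refine ⟨x1, ⟨hx1, ?_⟩, ?_⟩
    · simpa using hx01
    · show -PP x1 = 0
      rw [hP1, neg_zero]
  · refine ⟨x0, ?_, not_spherical_of c11⟩
    rw [hC]; rfl

end Pool.Agent.Results.MP_af5b7f_an.NonSphericalBlowUp
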